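import Mathlib
import Pool.Agent.L0h46.TS.CyF

/-!
# Schneider's conjecture: the exceptional twists and unramified extensions

`K` is a number field, `p` a prime, `s` the number of primes of `K` above `p`, and `L ⊆ K` a subfield
over which `K` is normal. `rk(L, r)` is the rank of `Ш¹(O_{L,S}, ℤ_p(r))` (it does not depend on `S`).
`Unramified and p-split` means: unramified at all finite primes, and all primes above `p` split
completely. (By class field theory, which is *not* used in the proof, the Galois groups of the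
unramified and `p`-split abelian `p`-extensions of `K` are the quotients of the `p`-part of the class
group of `O_K[1/p]`, for `p = 2` in the narrow sense.)

Let `p ^ n` be the number of roots of unity of `p`-power order in `K`, `p ^ n > 2`.

(A) For every finite set `R` of nonzero integers there is an unramified and `p`-split abelian extension
of `K` of degree `p ^ E`, `E = ∑_{r ∈ R} (n + v_p(r)) max(0, rk(L, r) - (s - 1))`; and for every
`r ≠ 0` there is one whose Galois group is `(ℤ/p^(n + v_p(r)))^(rk(L, r) - (s - 1))`.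

Hence `∑_{r ≠ 0} (n + v_p(r)) max(0, rk(L, r) - (s - 1)) ≤ v_p(#Cl(O_K[1/p]))`: an explicit form of
the theorem of Schneider that the conjecture holds for all but finitely many twists.

(B) If `s = 1`: Schneider's conjecture for `L` and `r ≠ 0` holds if `K` has no cyclic unramified and
`p`-split extension of degree `p ^ (n + v_p(r))`; and if it fails for all `r` in the finite set `R`,
`0 ∉ R`, then `K` has an unramified and `p`-split abelian extension of degree
`p ^ (∑_{r ∈ R} (n + v_p(r)))`.

(C) Let `K` be any number field (with or without roots of unity), `r` any integer such that the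
`r`-th power of the cyclotomic character of `K` is trivial modulo `p ^ b` (for example, `r` divisible
by `(p - 1) p ^ (b - 1)`, `p` odd). Then `K` has an unramified and `p`-split extension with group
`(ℤ/p^b)^(rk(K, r) - (s - 1))`.

(D) The hypotheses of (A) and (B) hold, with `s = 1`, for `K = ℚ(ζ_{p^n})`, `p ^ n > 2`, and all of
its subfields `L`.
-/

set_option autoImplicit false

namespace Pool.Agent.Results.MP_59f3ad_nt.ExceptionalTwists

open NumberField

section definitions

variable {L K : Type} [Field L] [Field K] [Algebra L K]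

/-- The absolute Galois group of the field `L`. As algebraic closure of `L` we take the one of the
algebraic extension `K` of `L`. -/
abbrev AbsGal (L K : Type) [Field L] [Field K] [Algebra L K] : Type := Gal(AlgebraicClosure K/L)

/-- The ring of all algebraic integers. -/
abbrev Integers (K : Type) [Field K] : Type := 𝓞 (AlgebraicClosure K)

/-- The inertia group of a prime ideal of the ring of all algebraic integers. -/
def Inertia (L : Type) [Field L] [Algebra L K] (I : Ideal (Integers K)) : Set (AbsGal L K) :=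
  {g | ∀ x : Integers K, g • x - x ∈ I}

/-- Its decomposition group. -/
def Decomposition (L : Type) [Field L] [Algebra L K] (I : Ideal (Integers K)) :
    Set (AbsGal L K) :=
  {g | ∀ x : Integers K, g • x ∈ I ↔ x ∈ I}

variable {p : ℕ} [Fact p.Prime]

/-- The `p`-adic integer by which `g` acts on `ℤ_p(r)`: the value of the `r`-th power of the `p`-adic
cyclotomic character. -/
noncomputable def tate (p : ℕ) [Fact p.Prime] (r : ℤ) (g : AbsGal L K) : ℤ_[p] :=
  ((cyclotomicCharacter (AlgebraicClosure K) p
    (MulSemiringAction.toRingAut (AbsGal L K) (AlgebraicClosure K) g) ^ r : ℤ_[p]ˣ) : ℤ_[p])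

/-- The cocycles of the elements of the groups `Ш¹(O_{L,S}, ℤ_p(r))`: continuous cocycles which vanish
on the inertia groups of the primes not above `p` (the cyclotomic character is trivial on them; the
classes are unramified outside `S` and locally trivial at the places of `S`), and whose restrictions
to the decomposition groups of the primes above `p` are coboundaries. -/
structure IsShaCocycle (r : ℤ) (c : AbsGal L K → ℤ_[p]) : Prop where
  cont : Continuous c
  mul : ∀ g h, c (g * h) = c g + tate p r g * c h
  away : ∀ q : ℕ, q.Prime → q ≠ p → ∀ I : Ideal (Integers K), I.IsPrime → (q : Integers K) ∈ I →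
    ∀ g ∈ Inertia L I, c g = 0
  above : ∀ I : Ideal (Integers K), I.IsPrime → (p : Integers K) ∈ I →
    ∃ z : ℤ_[p], ∀ g ∈ Decomposition L I, c g = (tate p r g - 1) * z

/-- The rank of `Ш¹(O_{L,S}, ℤ_p(r))` is at least `m` for some `S`: there are `m` classes which are
linearly independent over `ℤ_p` (modulo coboundaries). -/
def RankAtLeast (L K : Type) [Field L] [Field K] [Algebra L K] (p : ℕ) [Fact p.Prime] (r : ℤ)
    (m : ℕ) : Prop :=
  ∃ c : Fin m → AbsGal L K → ℤ_[p], (∀ j, IsShaCocycle r (c j)) ∧
    ∀ a : Fin m → ℤ_[p], (∃ z, ∀ g, ∑ j, a j * c j g = (tate p r g - 1) * z) → a = 0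

/-- Schneider's conjecture for `L`, `p` and `r`: every class is torsion, i.e. the rank is zero. -/
def Schneider (L K : Type) [Field L] [Field K] [Algebra L K] (p : ℕ) [Fact p.Prime] (r : ℤ) :
    Prop :=
  ∀ c : AbsGal L K → ℤ_[p], IsShaCocycle r c →
    ∃ a : ℤ_[p], a ≠ 0 ∧ ∃ z, ∀ g, a * c g = (tate p r g - 1) * z

/-- `K` has a Galois extension with group `A` in which all finite primes are unramified and all primes
above `p` split completely: there is a continuous homomorphism of the absolute Galois group of `K`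
onto the discrete group `A` which is trivial on the inertia groups of the primes not above `p` and on
the decomposition groups of the primes above `p`. -/
def UnramifiedSplit (K : Type) [Field K] (p : ℕ) (A : Type) [AddCommGroup A] : Prop :=
  ∃ φ : AbsGal K K →* Multiplicative A, IsOpen (φ.ker : Set (AbsGal K K)) ∧
    Function.Surjective φ ∧
    (∀ q : ℕ, q.Prime → q ≠ p → ∀ I : Ideal (Integers K), I.IsPrime → (q : Integers K) ∈ I →
      ∀ g ∈ Inertia K I, φ g = 1) ∧
    ∀ I : Ideal (Integers K), I.IsPrime → (p : Integers K) ∈ I → ∀ g ∈ Decomposition K I, φ g = 1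

/-- The number of primes of `K` above `p`. -/
noncomputable def numAbove (K : Type) [Field K] (p : ℕ) : ℕ :=
  Nat.card {P : Ideal (𝓞 K) // P.IsPrime ∧ (p : 𝓞 K) ∈ P}

/-- The number of roots of unity of `p`-power order in `K` is `p ^ n`, and it is at least three. -/
structure Roots (K : Type) [Field K] (p n : ℕ) : Prop where
  pos : 0 < n
  two : p ≠ 2 ∨ 2 ≤ n
  root : ∃ ζ : K, IsPrimitiveRoot ζ (p ^ n)
  root' : ¬ ∃ ζ : K, IsPrimitiveRoot ζ (p ^ (n + 1))

end definitions

section proof

open Pool.Agent.L0h46.TS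

variable {p : ℕ} [Fact p.Prime] {L K : Type} [Field L] [Field K] [Algebra L K]

theorem sha {r : ℤ} {c : AbsGal L K → ℤ_[p]} (h : IsShaCocycle r c) : ShaR r c :=
  ⟨h.cont, h.mul, h.away, h.above⟩

theorem unr {A : Type} [AddCommGroup A] {φ : AbsGal K K →* Multiplicative A}
    (h : UnrSplit p φ) : UnramifiedSplit K p A :=
  ⟨φ, h.isOpen, h.surj, h.unr, h.split⟩

theorem not_schneider {r : ℤ} (h : ¬ Schneider L K p r) : RankAtLeast L K p r 1 := by
  unfold Schneider at h
  push Not at h
  obtain ⟨c, hc, h⟩ := h
  refine ⟨fun _ => c, fun _ => hc, fun a ha => ?_⟩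
  obtain ⟨z, hz⟩ := ha
  by_contra hne
  have h0 : a 0 ≠ 0 := by
    intro h1
    apply hne
    funext j
    rw [Subsingleton.elim j 0, h1]
    rfl
  obtain ⟨g, hg⟩ := h (a 0) h0 z
  apply hg
  have h2 := hz g
  rw [Fin.sum_univ_one] at h2
  exact h2

theorem toOne {b : ℕ} (h : UnramifiedSplit K p (Fin 1 → ZMod (p ^ b))) :
    UnramifiedSplit K p (ZMod (p ^ b)) := by
  obtain ⟨φ, h1, h2, h3, h4⟩ := h
  let ev : (Fin 1 → ZMod (p ^ b)) →+ ZMod (p ^ b) := Pi.evalAddMonoidHom _ 0
  have hinj : ∀ g, (AddMonoidHom.toMultiplicative ev).comp φ g = 1 ↔ φ g = 1 := by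
    intro g
    constructor
    · intro h5
      apply Multiplicative.toAdd.injective
      funext j
      rw [Subsingleton.elim j 0]
      exact h5
    · intro h5
      rw [MonoidHom.comp_apply, h5, map_one]
  refine ⟨(AddMonoidHom.toMultiplicative ev).comp φ, ?_, ?_, ?_, ?_⟩
  · convert h1 using 1
    ext g
    rw [SetLike.mem_coe, MonoidHom.mem_ker, hinj, SetLike.mem_coe, MonoidHom.mem_ker]
  · intro x
    obtain ⟨g, hg⟩ := h2 (Multiplicative.ofAdd fun _ => x.toAdd)
    refine ⟨g, ?_⟩
    rw [MonoidHom.comp_apply, hg]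
    rfl
  · intro q hq hqp I hI hqI g hg
    rw [hinj]
    exact h3 q hq hqp I hI hqI g hg
  · intro I hI hpI g hg
    rw [hinj]
    exact h4 I hI hpI g hg

end proof

open Pool.Agent.L0h46.TS in
/-- **Main result**, see the beginning of the file. -/
theorem result (p : ℕ) [Fact p.Prime] (K : Type) [Field K] [NumberField K] :
    -- (A)
    (∀ (L : Type) [Field L] [Algebra L K] [Normal L K] (n : ℕ), Roots K p n →
      ∀ (R : Finset ℤ), (0 : ℤ) ∉ R → ∀ m : ℤ → ℕ, (∀ r ∈ R, RankAtLeast L K p r (m r)) →
        (∃ (A : Type) (_ : AddCommGroup A), UnramifiedSplit K p A ∧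
          Nat.card A = p ^ (∑ r ∈ R, (n + padicValInt p r) * (m r - (numAbove K p - 1)))) ∧
        ∀ r ∈ R, UnramifiedSplit K p
          (Fin (m r - (numAbove K p - 1)) → ZMod (p ^ (n + padicValInt p r)))) ∧
    -- (B)
    (∀ (L : Type) [Field L] [Algebra L K] [Normal L K] (n : ℕ), Roots K p n → numAbove K p = 1 →
      (∀ r : ℤ, r ≠ 0 → ¬ UnramifiedSplit K p (ZMod (p ^ (n + padicValInt p r))) →
        Schneider L K p r) ∧
      ∀ (R : Finset ℤ), (0 : ℤ) ∉ R → (∀ r ∈ R, ¬ Schneider L K p r) →
        ∃ (A : Type) (_ : AddCommGroup A), UnramifiedSplit K p A ∧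
          Nat.card A = p ^ (∑ r ∈ R, (n + padicValInt p r))) ∧
    -- (C)
    (∀ (r : ℤ) (b m : ℕ), (∀ g : AbsGal K K, (p : ℤ_[p]) ^ b ∣ tate p r g - 1) →
      RankAtLeast K K p r m →
        UnramifiedSplit K p (Fin (m - (numAbove K p - 1)) → ZMod (p ^ b))) ∧
    -- (D)
    ∀ n : ℕ, 0 < n → (p ≠ 2 ∨ 2 ≤ n) → IsCyclotomicExtension {p ^ n} ℚ K →
      Roots K p n ∧ numAbove K p = 1 ∧ ∀ (L : Type) [Field L] [Algebra L K], Normal L K := by
  have hA : ∀ (L : Type) [Field L] [Algebra L K] [Normal L K] (n : ℕ), Roots K p n →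
      ∀ (R : Finset ℤ), (0 : ℤ) ∉ R → ∀ m : ℤ → ℕ, (∀ r ∈ R, RankAtLeast L K p r (m r)) →
        (∃ (A : Type) (_ : AddCommGroup A), UnramifiedSplit K p A ∧
          Nat.card A = p ^ (∑ r ∈ R, (n + padicValInt p r) * (m r - (numAbove K p - 1)))) ∧
        ∀ r ∈ R, UnramifiedSplit K p
          (Fin (m r - (numAbove K p - 1)) → ZMod (p ^ (n + padicValInt p r))) := by
    intro L _ _ _ n hn R hR m hm
    constructor
    · have h1 : ∀ r : ℤ, ∃ c : Fin (m r) → AbsGal L K → ℤ_[p], r ∈ R →
          (∀ j, IsShaCocycle r (c j)) ∧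
          ∀ a : Fin (m r) → ℤ_[p], (∃ z, ∀ g, ∑ j, a j * c j g = (tate p r g - 1) * z) → a = 0 := by
        intro r
        by_cases hr : r ∈ R
        · obtain ⟨c, hc⟩ := hm r hr
          exact ⟨c, fun _ => hc⟩
        · exact ⟨fun _ _ => 0, fun h => absurd h hr⟩
      choose c hc using h1
      obtain ⟨A, hA, φ, hφ, hcard⟩ := many_twists_rel hn.pos hn.two hn.root hn.root' R hR m c
        (fun r hr j => sha ((hc r hr).1 j)) (fun r hr => (hc r hr).2)
      refine ⟨A, hA, unr hφ, ?_⟩
      rw [hcard]
      congr 1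
      exact Finset.sum_congr rfl fun r _ => mul_comm _ _
    · intro r hr
      obtain ⟨c, hc, hi⟩ := hm r hr
      obtain ⟨φ, hφ⟩ := one_twist_rel hn.pos hn.two hn.root hn.root'
        (r := r) (fun h => hR (h ▸ hr)) c (fun j => sha (hc j)) hi
      exact unr hφ
  refine ⟨hA, ?_, ?_, ?_⟩
  · intro L _ _ _ n hn hs
    constructor
    · intro r hr hno
      by_contra hcon
      have h1 := (hA L n hn {r} (by rw [Finset.mem_singleton]; exact fun h => hr h.symm)
        (fun _ => 1) (fun r' hr' => by
          rw [Finset.mem_singleton.1 hr']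
          exact not_schneider hcon)).2 r (Finset.mem_singleton_self r)
      rw [hs] at h1
      exact hno (toOne h1)
    · intro R hR hns
      obtain ⟨A, hA', h1, h2⟩ := (hA L n hn R hR (fun _ => 1)
        (fun r hr => not_schneider (hns r hr))).1
      refine ⟨A, hA', h1, ?_⟩
      rw [h2, hs]
      congr 1
      exact Finset.sum_congr rfl fun r _ => by rw [Nat.sub_self, Nat.sub_zero, mul_one]
  · intro r b m hb hm
    obtain ⟨c, hc, hi⟩ := hm
    obtain ⟨φ, hφ⟩ := one_twist r b hb c (fun j => ⟨(hc j).cont, (hc j).mul, (hc j).away,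
      (hc j).above⟩) hi
    exact unr hφ
  · intro n hn hp2 hK
    refine ⟨⟨hn, hp2, cyclo_root, cyclo_root' hn⟩, cyclo_above hn, ?_⟩
    intro L _ _
    have h1 : Normal ℚ K := (IsCyclotomicExtension.isGalois {p ^ n} ℚ K).to_normal
    have : CharZero L := (RingHom.charZero_iff (algebraMap L K).injective).2 inferInstance
    exact Normal.tower_top_of_normal ℚ L K

end Pool.Agent.Results.MP_59f3ad_nt.ExceptionalTwists
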