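import Pool.Agent.L0h1.GT.Sch
import Pool.Agent.L0h1.JS.Law

/-!
# Schneider's conjecture for `p = 2` and all twists: multiquadratic fields of all degrees

The definitions are in `Pool/Agent/L0h1/JS/Defs.lean`: the condition `(C_e)` is `CondE e`. `sqf n` is the
squarefree part of `n` and `η = ∏_{i ≥ 1} (1 - 2^{-i}) = 0.2887...`. All proportions are natural
densities.

A finite set `A` of positive integers is good if `(C_{-e})` holds for the squarefree parts `e` of the
products of the elements of all subsets of `A` (the elements of `GA A`). Let `F = ℚ(√a : a ∈ A)`.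

**Theorem.** (1) Let `A` be good. Then `Ш¹(O_{L,S}, ℤ_2(r)) = 0` for **all** `r ≠ 0`, all `S` and all
subfields `L` of `F(√-1)`, and `n = [F : ℚ]` is the number of the elements of `GA A`.

(2) *Extensions.* Let `A` be good, and let `m` run through the squarefree numbers of **any** residue class
(that contains a squarefree number). The proportion of the `m` such that `A ∪ {m}` is good tends to `η^n`.
Hence for every `ε > 0` and large `X` the proportion of the `m ≤ X` such that `Ш¹(O_{L,S}, ℤ_2(r)) = 0` for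
all `r ≠ 0` and all subfields `L` of `F(√-1, √m)` is at least `η^n - ε`.

(3) *One tower for all the good sets.* Let `S₀` be a finite set of numbers, `k > 0` and `c` prime to `k`.
There is **one** sequence `D_0, D_1, ...` of squarefree numbers greater than `1`, congruent to `c` modulo
`k`, pairwise coprime, with `D_i` prime to all the positive numbers `s ≤ i` and `s ∈ S₀`, with the following
property. All the fields `ℚ(√D_i : i ≥ j)` have infinite degree, and for **all** good sets `A` and all `j`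
such that every element of `GA A` is in `S₀` or `≤ j` (all large `j`; if `GA A ⊆ S₀`, then all `j`),
`A ∪ {D_i : i ∈ T}` is good for all finite sets `T` of indices `i ≥ j`, and `Ш¹(O_{L,S}, ℤ_2(r)) = 0` for
all `r ≠ 0`, all `S` and **all** number fields `L` in `ℚ(√-1, √a (a ∈ A), √D_i (i ≥ j))`.

(4) The same sequence serves a proportion near `η` of the quadratic fields: for all `ε > 0` and every
residue class that contains a squarefree number, a proportion of at least `η - ε` of the squarefree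
`m ≤ X` of this class (for `X` large) is such that `Ш¹(O_{L,S}, ℤ_2(r)) = 0` for all `r ≠ 0`, all `S` and
all number fields `L` in `ℚ(√-1, √m, √D_i (i ≥ m))`.

The starting file `QuadraticFieldsNaturalDensity` has the case of one quadratic field, without the
class `7` modulo `8`. New: the joint law of the criteria `(C_{-sqf(e m)})` in all classes (projects SJ,
JR and JS: `Pool/Agent/L0h*/{SJ,JR,JS}`, by helpers 1, 2, 9, 26, 36, 37, 48, 57, 60, 63, 71, 75, 81, 84,
85, 86, 88, 89, 92), the vanishing in the split case (a two-step descent, helpers 86, 36, 63) and the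
reflection `(C_{-e}) → (C_e)` in all classes (`L0h1/JS/REF.lean`). The empty set is good.
-/

set_option autoImplicit false

namespace Pool.Agent.Results.MP_59f3ad_nt.MultiquadraticTowersAllTwists

open Pool.Agent.L0h1.JS.D

/-- The elements of `A` and the `D_i` with `i ≥ j`. -/
def Tow (A : Finset ℕ) (D : ℕ → ℕ) (j : ℕ) : Set ℕ := {b | b ∈ A ∨ ∃ i, j ≤ i ∧ b = D i}

/-- `Ш¹(O_{L,S}, ℤ_2(r)) = 0` for all `S`, all `r ≠ 0` and all number fields `L` in
`ℚ(√-1, √b : b ∈ B)`. -/
def AllFields (B : Set ℕ) : Prop :=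
  ∀ L : IntermediateField ℚ QBar, FiniteDimensional ℚ L → L ≤ SqI B → ∀ r : ℤ, r ≠ 0 → ShaZero L r

/-- **Schneider's conjecture for `p = 2`, all twists, multiquadratic fields of all degrees.** -/
theorem result :
    (∀ A : Finset ℕ, 0 ∉ A → GoodSet A →
      -- (1) the fields of a good set
      (AllTwists (A : Set ℕ) ∧ Module.finrank ℚ (SqF (A : Set ℕ)) = (GA A).ncard) ∧
      -- (2) the extensions
      (∀ q r : ℕ, 0 < q → (∃ m, Fam q r m) →
        Filter.Tendsto (fun X : ℕ =>
          count (fun m => Fam q r m ∧ GoodSet (insert m A)) X / count (Fam q r) X)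
          Filter.atTop (nhds (eta ^ Module.finrank ℚ (SqF (A : Set ℕ)))) ∧
        ∀ ε : ℝ, 0 < ε → ∃ X₀ : ℕ, ∀ X : ℕ, X₀ ≤ X →
          (eta ^ Module.finrank ℚ (SqF (A : Set ℕ)) - ε) * count (Fam q r) X ≤
            count (fun m => Fam q r m ∧ AllTwists (insert m (A : Set ℕ))) X)) ∧
    -- (3) one tower for all the good sets
    ∀ (S₀ : Finset ℕ) (k c : ℕ), 0 < k → c.Coprime k → ∃ D : ℕ → ℕ,
      (∀ i, Squarefree (D i) ∧ 1 < D i ∧ D i ≡ c [MOD k]) ∧
      (∀ i j, i ≠ j → (D i).Coprime (D j)) ∧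
      (∀ i s, s ≠ 0 → (s ∈ S₀ ∨ s ≤ i) → (D i).Coprime s) ∧
      (∀ j, ¬ FiniteDimensional ℚ (SqF (Tow ∅ D j))) ∧
      (∀ A : Finset ℕ, 0 ∉ A → GoodSet A → ∀ j, (∀ e ∈ GA A, e ∈ S₀ ∨ e ≤ j) →
        (∀ T : Finset ℕ, (∀ i ∈ T, j ≤ i) → GoodSet (A ∪ T.image D)) ∧ AllFields (Tow A D j)) ∧
      -- (4) the quadratic fields
      (∀ q r : ℕ, 0 < q → (∃ m, Fam q r m) → ∀ ε : ℝ, 0 < ε → ∃ X₀ : ℕ, ∀ X : ℕ, X₀ ≤ X →
        (eta - ε) * count (Fam q r) X ≤
          count (fun m => Fam q r m ∧ AllFields (Tow {m} D m)) X) := by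
  refine ⟨fun A h0 hA => ⟨⟨all_of Pool.Agent.L0h1.JS.a_VMQN Pool.Agent.L0h85.JS.t_TRG h0 hA,
      Pool.Agent.L0h1.SJ.degree h0⟩,
    fun q r hq hF => ⟨ext_lim Pool.Agent.L0h1.JS.a_LAWG h0 hA hq r hF,
      ext_ineq Pool.Agent.L0h1.JS.a_LAWG Pool.Agent.L0h1.JS.a_VMQN Pool.Agent.L0h85.JS.t_TRG h0 hA hq r
        hF⟩⟩, fun S₀ k c hk hc => ?_⟩
  obtain ⟨D, h1, h2, h2', h3, h4, h5⟩ := Pool.Agent.L0h1.GT.Sch.final Pool.Agent.L0h1.JS.a_LAWG
    Pool.Agent.L0h1.JS.a_VMQN Pool.Agent.L0h85.JS.t_TRG S₀ hk hc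
  refine ⟨D, h1, h2, h2', fun j => ?_, h4, fun q r hq hF ε hε => ?_⟩
  · have h6 : Tow ∅ D j = {b | ∃ i, j ≤ i ∧ b = D i} := by
      ext b
      simp [Tow]
    rw [h6]
    exact h3 j
  · obtain ⟨X₀, hX₀⟩ := h5 q r hq hF ε hε
    refine ⟨X₀, fun X hX => (hX₀ X hX).trans (Pool.Agent.L0h1.JS.D.count_mono (fun m hm => ?_) X)⟩
    refine ⟨hm.1, fun L hfd hL s hs => hm.2 L hfd (hL.trans ?_) s hs⟩
    refine Pool.Agent.L0h1.JS.SqI_mono ?_
    rintro b (hb | hb)
    · exact Or.inl (Finset.mem_singleton.1 hb)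
    · exact Or.inr hb

end Pool.Agent.Results.MP_59f3ad_nt.MultiquadraticTowersAllTwists
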