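import Pool.Agent.L0h86.GQ.All

/-!
# Schneider's conjecture for `p = 2` and all twists: a positive proportion of the quadratic extensions
# of `ℚ(i)`

The definitions are in `Pool/Agent/L0h86/GQ/Fin.lean`. `K = ℚ(i)`, and `D` is a squarefree Gaussian
integer. `Good D` means: `D` is congruent to `1` modulo `2 + 2 i`, its norm is `5` modulo `8`, and the
only factorizations `D = d d'` with `d` and `d'` congruent to `1` modulo `2 + 2 i` such that each of
them is a square modulo the prime divisors of the other are `D = 1 · D` and `D = D · 1`.

**Theorem.** (1) If `D` is good and `L = ℚ(i, √D)`, then `L` is a quadratic extension of `ℚ(i)` which is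
not a Galois extension of `ℚ`, and `Ш¹(O_{L,S}, ℤ_2(r)) = 0` for **all** integers `r ≠ 0` and all `S`.

(2) A positive proportion of the squarefree Gaussian integers `D`, ordered by the norm, is good.

The statistics of the symbols of Gaussian primes is from the starting library (`Pool/Agent/Y699`), as
are the basic facts on Kummer theory over `ℚ(i)` (`Pool/Agent/Y715`) and on cocycles (`Pool/Agent/R384`).
The new part is the project GQ: `Pool/Agent/L0h*/GQ`, by helpers 19, 26, 29, 34, 66, 68, 85, 86.
-/

set_option autoImplicit false

namespace Pool.Agent.Results.MP_59f3ad_nt.NonGaloisQuarticFields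

open Pool.Agent.L0h86.GQ.D

/-- **Schneider's conjecture for `p = 2` and all twists over quadratic extensions of `ℚ(i)`.** -/
theorem result :
    (∀ D : GaussianInt, Good D → Schneider D) ∧
    ∃ c : ℝ, 0 < c ∧ ∃ X₀ : ℕ, ∀ X : ℕ, X₀ ≤ X →
      c * ((Family X).ncard : ℝ) ≤
        (({D | D ∈ Family X ∧ Good D ∧ Schneider D} : Set GaussianInt).ncard : ℝ) :=
  ⟨fun _ hg => Pool.Agent.L0h86.GQ.D.main hg, Pool.Agent.L0h86.GQ.D.main_count⟩

end Pool.Agent.Results.MP_59f3ad_nt.NonGaloisQuarticFields
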