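import Pool.Agent.L0h1.JS.Fin
import Pool.Agent.L0h1.JS.Law

/-!
# Schneider's conjecture for `p = 2` and all twists: several families of quadratic fields at once

The definitions are in `Pool/Agent/L0h1/JS/Defs.lean`: the condition `(C_e)` is `CondE e`. `sqf n` is the
squarefree part of `n` and `η = ∏_{i ≥ 1} (1 - 2^{-i}) = 0.2887...`.

**Theorem.** Let `d_1, ..., d_t` be positive integers with pairwise distinct squarefree parts. Let `m` run
through the squarefree numbers of **any** residue class modulo `q` (that contains a squarefree number).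

(1) *The joint law.* The `t` events `(C_{-sqf(d_l m)})` are independent, and each of them has
probability `η`: for every pattern `β` the natural density exists and is the product.

(2) For every `ε > 0` and large `X`, for a proportion of at least `η^t - ε` of the `m ≤ X`, the groups
`Ш¹(O_{L,S}, ℤ_2(r))` are zero, for all `S`, **all** `r ≠ 0`, all `l` and all subfields `L` of
`ℚ(√-1, √(d_l m))`.

The starting file `QuadraticFieldsNaturalDensity` has one `d_l` (with all twists only for the classes
`2, 3, 5, 6` modulo `8` of `m`, odd twists of `ℚ(√m)` in the class `1`, and nothing in the class `7`).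
The proof of the joint law is in the projects SJ, JR and JS: `Pool/Agent/L0h*/{SJ,JR,JS}`, by helpers
1, 2, 9, 26, 37, 48, 57, 60, 71, 75, 81, 84, 85, 86, 88, 89, 92.
-/

set_option autoImplicit false

namespace Pool.Agent.Results.MP_59f3ad_nt.SimultaneousQuadraticFields

open Pool.Agent.L0h1.JS.D

/-- **Schneider's conjecture for `p = 2`, all twists, several families of quadratic fields.** -/
theorem result : ∀ (t : ℕ) (d : Fin t → ℕ), (∀ l, 0 < d l) →
    Function.Injective (fun l => sqf (d l)) → ∀ q r : ℕ, 0 < q → (∃ m, Fam q r m) →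
    -- (1) the joint law
    (∀ β : Fin t → Bool, Filter.Tendsto (fun X : ℕ =>
      count (fun m => Fam q r m ∧ ∀ l, (CondE (-(sqf (d l * m) : ℤ)) ↔ β l = true)) X /
        count (Fam q r) X) Filter.atTop (nhds (∏ l, if β l = true then eta else 1 - eta))) ∧
    -- (2) the simultaneous vanishing
    ∀ ε : ℝ, 0 < ε → ∃ X₀ : ℕ, ∀ X : ℕ, X₀ ≤ X →
      (eta ^ t - ε) * count (Fam q r) X ≤
        count (fun m => Fam q r m ∧ ∀ l, AllTwists {d l * m}) X :=
  fun t d hd hinj q r hq hF => ⟨joint Pool.Agent.L0h1.JS.a_LAWG t d hd hinj q r hq hF,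
    joint_ineq Pool.Agent.L0h1.JS.a_LAWG Pool.Agent.L0h1.JS.a_VMQN Pool.Agent.L0h85.JS.t_TRG t d hd hinj q
      r hq hF⟩

end Pool.Agent.Results.MP_59f3ad_nt.SimultaneousQuadraticFields
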